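import Mathlib

/-!
Lemma B (helper80, note 6873; leaf induction helper35): a tree `T` plus one vertex `e` (the root),
`n v = 1` iff `v` is joined to `e`.  If every closed set avoiding `e` splits, then `e` has exactly
one neighbour.  Sets are functions `V → ZMod 2`.
-/

namespace Pool.Agent.H35.LB

open Finset
open scoped Classical

universe u

variable {V : Type u} [Fintype V]

/-- number mod 2 of `T`-neighbours of `v` in `s` -/
noncomputable def nb (T : SimpleGraph V) (s : V → ZMod 2) (v : V) : ZMod 2 :=
  ∑ u, if T.Adj v u then s u else 0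

/-- number mod 2 of neighbours of the root in `s` -/
def en (n s : V → ZMod 2) : ZMod 2 := ∑ u, n u * s u

/-- `s` is closed and avoids the root -/
def Closed (T : SimpleGraph V) (n s : V → ZMod 2) : Prop :=
  s ≠ 0 ∧ (∀ v, s v = 0 → nb T s v = 0) ∧ en n s = 0

/-- `b` is pointed at `g` (`none` is the root) -/
def Pointed (T : SimpleGraph V) (n b : V → ZMod 2) : Option V → Prop
  | none => (∀ v, b v = 0 → nb T b v = 0) ∧ en n b = 1
  | some g => b g = 0 ∧ nb T b g = 1 ∧ (∀ v, v ≠ g → b v = 0 → nb T b v = 0) ∧ en n b = 0

/-- `s` splits -/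
def Splits (T : SimpleGraph V) (n s : V → ZMod 2) : Prop :=
  ∃ (g : Option V) (c d : V → ZMod 2), (∀ v, s v = c v + d v) ∧ (∀ v, c v * d v = 0) ∧
    Pointed T n c g ∧ Pointed T n d g

/-- every closed set avoiding the root splits -/
def Hyp (T : SimpleGraph V) (n : V → ZMod 2) : Prop :=
  ∀ s, Closed T n s → Splits T n s

theorem z2 (a : ZMod 2) : a = 0 ∨ a = 1 := by
  revert a; decide

theorem z2b : ∀ c d : ZMod 2, c + d = 0 → c * d = 0 → c = 0 ∧ d = 0 := by decide

theorem z2c : ∀ cl dl cp dp : ZMod 2, cl + dl = cp + dp → cl * dl = 0 → cp * dp = 0 →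
    (cl = 0 → cl + dl = 1 → cp = 0) → (dl = 0 → cl + dl = 1 → dp = 0) → cl = cp ∧ dl = dp := by
  decide

theorem one_ne : (1 : ZMod 2) ≠ 0 := by decide

section red

variable (T : SimpleGraph V) (l p : V) (n : V → ZMod 2)

/-- the vertices other than `l` -/
abbrev Rest (l : V) := {v : V // v ∈ ({l}ᶜ : Set V)}

/-- the new neighbourhood of the root -/
noncomputable def n' (u : Rest l) : ZMod 2 := n u + if (u : V) = p then n l else 0

/-- splitting a sum at `l` -/
theorem sum_split (f : V → ZMod 2) : ∑ u, f u = f l + ∑ u : Rest l, f u := by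
  rw [← Finset.add_sum_erase _ _ (Finset.mem_univ l)]
  congr 1
  symm
  refine Finset.sum_bij (fun (u : Rest l) _ => (u : V)) ?_ ?_ ?_ ?_
  · intro u _
    have := u.2
    simp only [Set.mem_compl_iff, Set.mem_singleton_iff] at this
    simp [this]
  · intro a _ b _ h
    exact Subtype.ext h
  · intro b hb
    have hb' : b ≠ l := by simpa using hb
    exact ⟨⟨b, by simpa using hb'⟩, Finset.mem_univ _, rfl⟩
  · intro a _
    rfl

variable {T l p n}

theorem nb_rest (hpl : p ≠ l) (hl : ∀ u, T.Adj l u ↔ u = p) (s : V → ZMod 2) (v : Rest l) :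
    nb T s v = nb (T.induce ({l}ᶜ : Set V)) (fun u => s u) v + if (v : V) = p then s l else 0 := by
  unfold nb
  rw [sum_split l (fun u => if T.Adj v u then s u else 0), add_comm]
  congr 1
  by_cases h : (v : V) = p
  · have : T.Adj (v : V) l := by
      rw [T.adj_comm, hl]; exact h
    simp [h, this, h ▸ this]
  · have : ¬ T.Adj (v : V) l := by
      rw [T.adj_comm, hl]; exact h
    simp [h, this]

theorem nb_l (hl : ∀ u, T.Adj l u ↔ u = p) (s : V → ZMod 2) : nb T s l = s p := by
  unfold nb
  rw [Finset.sum_eq_single p]
  · simp [hl]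
  · intro b _ hb
    simp [hl, hb]
  · intro h; exact absurd (Finset.mem_univ _) h

theorem en_rest (hpl : p ≠ l) (s : V → ZMod 2) (hs : s l = s p) :
    en n s = en (n' l p n) (fun u => s u) := by
  unfold en n'
  rw [sum_split l (fun u => n u * s u)]
  have : ∀ u : Rest l, (n u + if (u : V) = p then n l else 0) * s u =
      n u * s u + if (u : V) = p then n l * s p else 0 := by
    intro u
    by_cases h : (u : V) = p
    · simp only [h, if_true]; ring
    · simp only [h, if_false]; ring
  simp only [this]
  rw [Finset.sum_add_distrib, hs, add_comm]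
  congr 1
  rw [Finset.sum_eq_single (⟨p, by simpa using hpl⟩ : Rest l)]
  · simp
  · intro b _ hb
    rw [if_neg]
    intro h
    exact hb (Subtype.ext h)
  · intro h; exact absurd (Finset.mem_univ _) h

/-- the reduction at a leaf -/
theorem hyp_rest (hpl : p ≠ l) (hl : ∀ u, T.Adj l u ↔ u = p) (H : Hyp T n) :
    Hyp (T.induce ({l}ᶜ : Set V)) (n' l p n) := by
  intro s' hs'
  obtain ⟨h0, h1, h2⟩ := hs'
  let P : Rest l := ⟨p, by simpa using hpl⟩
  let s : V → ZMod 2 := fun v => if h : v = l then s' P else s' ⟨v, by simpa using h⟩
  have hsr : (fun u : Rest l => s u) = s' := by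
    funext u
    have hu : (u : V) ≠ l := fun h => u.2 h
    simp [s, hu]
  have hsl : s l = s p := by
    simp [s, hpl, P]
  have hsv : ∀ u : Rest l, s u = s' u := fun u => congrFun hsr u
  have hcl : Closed T n s := by
    refine ⟨?_, ?_, ?_⟩
    · intro h
      apply h0
      funext u
      rw [← hsv, h]; rfl
    · intro v hv
      by_cases hvl : v = l
      · subst hvl
        rw [nb_l hl, ← hsl, hv]
      · have := nb_rest hpl hl s ⟨v, by simpa using hvl⟩
        simp only at this
        rw [this, hsr]
        have hv' : s' ⟨v, by simpa using hvl⟩ = 0 := by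
          rw [← hsv]; exact hv
        rw [h1 _ hv']
        by_cases hvp : v = p
        · simp only [hvp, if_true]
          rw [hsl, ← hvp, hv]; simp
        · simp [hvp]
    · rw [en_rest hpl s hsl, hsr]; exact h2
  obtain ⟨g, c, d, hcd, hcd0, hc, hd⟩ := H s hcl
  -- the general fact on a pointed set
  have key : ∀ b : V → ZMod 2, Pointed T n b g → b l = 0 → s l = 1 → b p = 0 := by
    intro b hb hbl hs1
    cases g with
    | none =>
      have := hb.1 l hbl
      rwa [nb_l hl] at this
    | some w =>
      have hwl : l ≠ w := by
        rintro rfl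
        have h1 := hc.1
        have h2 := hd.1
        have := hcd l
        rw [h1, h2] at this
        rw [this] at hs1
        exact absurd hs1 (by decide)
      have := hb.2.2.1 l hwl hbl
      rwa [nb_l hl] at this
  have hcl' : c l = c p ∧ d l = d p := by
    have e1 := hcd l
    have e2 := hcd p
    refine z2c _ _ _ _ ?_ (hcd0 l) (hcd0 p) ?_ ?_
    · rw [← e1, ← e2, hsl]
    · intro h1 h2; exact key c hc h1 (by rw [e1]; exact h2)
    · intro h1 h2; exact key d hd h1 (by rw [e1]; exact h2)
  obtain ⟨hcl1, hdl1⟩ := hcl'
  have gl : g ≠ some l := by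
    rintro rfl
    have h1 := hc.1
    have h2 := hc.2.1
    rw [nb_l hl, ← hcl1, h1] at h2
    exact absurd h2 (by decide)
  have down : ∀ b : V → ZMod 2, b l = b p → Pointed T n b g →
      ∃ g' : Option (Rest l), Option.map Subtype.val g' = g ∧
        Pointed (T.induce ({l}ᶜ : Set V)) (n' l p n) (fun u => b u) g' := by
    intro b hbl hb
    have hnb : ∀ v : Rest l, b v = 0 →
        nb (T.induce ({l}ᶜ : Set V)) (fun u => b u) v = nb T b v := by
      intro v hv
      rw [nb_rest hpl hl b v]
      by_cases hvp : (v : V) = p
      · simp only [hvp, if_true]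
        rw [hbl, ← hvp, hv]; simp
      · simp [hvp]
    cases g with
    | none =>
      refine ⟨none, rfl, ?_, ?_⟩
      · intro v hv
        rw [hnb v hv]
        exact hb.1 v hv
      · rw [← en_rest hpl b hbl]; exact hb.2
    | some w =>
      have hwl : w ≠ l := by
        rintro rfl; exact gl rfl
      refine ⟨some ⟨w, by simpa using hwl⟩, rfl, hb.1, ?_, ?_, ?_⟩
      · rw [hnb _ hb.1]; exact hb.2.1
      · intro v hv hv0
        rw [hnb v hv0]
        refine hb.2.2.1 v ?_ hv0
        intro h
        exact hv (Subtype.ext h)
      · rw [← en_rest hpl b hbl]; exact hb.2.2.2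
  obtain ⟨g1, hg1, hc'⟩ := down c hcl1 hc
  obtain ⟨g2, hg2, hd'⟩ := down d hdl1 hd
  have hgg : g1 = g2 := by
    apply Option.map_injective (f := (Subtype.val : Rest l → V)) Subtype.val_injective
    rw [hg1, hg2]
  subst hgg
  refine ⟨g1, fun u => c u, fun u => d u, ?_, ?_, hc', hd'⟩
  · intro v
    rw [← hsv]; exact hcd v
  · intro v; exact hcd0 v

end red

/-- two leaves at the same vertex, both joined to the root: the closed set is unsplit -/
theorem cherry {T : SimpleGraph V} {n : V → ZMod 2} {l q p : V} (hlq : l ≠ q)
    (hpl : p ≠ l) (hpq : p ≠ q) (hl : ∀ u, T.Adj l u ↔ u = p) (hq : ∀ u, T.Adj q u ↔ u = p)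
    (nl : n l = 1) (nq : n q = 1) : ¬ Hyp T n := by
  intro H
  let s : V → ZMod 2 := fun v => if v = l ∨ v = q then 1 else 0
  have adj1 : ∀ v, T.Adj v l ↔ v = p := fun v => by rw [T.adj_comm]; exact hl v
  have adj2 : ∀ v, T.Adj v q ↔ v = p := fun v => by rw [T.adj_comm]; exact hq v
  -- sums of functions supported on {l, q}
  have sum2 : ∀ f : V → ZMod 2, (∀ u, u ≠ l → u ≠ q → f u = 0) → ∑ u, f u = f l + f q := by
    intro f hf
    rw [← Finset.sum_subset (Finset.subset_univ {l, q})]
    · rw [Finset.sum_pair hlq]
    · intro x _ hx
      simp only [Finset.mem_insert, Finset.mem_singleton, not_or] at hx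
      exact hf x hx.1 hx.2
  have nbs : ∀ b : V → ZMod 2, (∀ u, u ≠ l → u ≠ q → b u = 0) → ∀ v,
      nb T b v = if v = p then b l + b q else 0 := by
    intro b hb v
    unfold nb
    rw [sum2]
    · simp only [adj1, adj2]
      by_cases h : v = p <;> simp [h]
    · intro u h1 h2
      simp [hb u h1 h2]
  have ens : ∀ b : V → ZMod 2, (∀ u, u ≠ l → u ≠ q → b u = 0) → en n b = b l + b q := by
    intro b hb
    unfold en
    rw [sum2]
    · rw [nl, nq]; ring
    · intro u h1 h2
      simp [hb u h1 h2]
  have hs0 : ∀ u, u ≠ l → u ≠ q → s u = 0 := by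
    intro u h1 h2; simp [s, h1, h2]
  have sl : s l = 1 := by simp [s]
  have sq : s q = 1 := by simp [s]
  have hcl : Closed T n s := by
    refine ⟨?_, ?_, ?_⟩
    · intro h
      have := congrFun h l
      rw [sl] at this
      exact one_ne this
    · intro v _
      rw [nbs s hs0, sl, sq]
      by_cases h : v = p <;> simp [h]
      decide
    · rw [ens s hs0, sl, sq]; decide
  obtain ⟨g, c, d, hcd, hcd0, hc, hd⟩ := H s hcl
  have supp : ∀ u, u ≠ l → u ≠ q → c u = 0 ∧ d u = 0 := by
    intro u h1 h2
    have e1 := hcd u
    have e2 := hcd0 u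
    rw [hs0 u h1 h2] at e1
    exact z2b _ _ e1.symm e2
  have hcs : ∀ u, u ≠ l → u ≠ q → c u = 0 := fun u h1 h2 => (supp u h1 h2).1
  have hds : ∀ u, u ≠ l → u ≠ q → d u = 0 := fun u h1 h2 => (supp u h1 h2).2
  -- the value of c at the point
  cases g with
  | none =>
    have h1 := hc.2
    rw [ens c hcs] at h1
    have h2 := hc.1 p (hcs p hpl hpq)
    rw [nbs c hcs, if_pos rfl, h1] at h2
    exact absurd h2 (by decide)
  | some w =>
    have h1 := hc.2.2.2
    rw [ens c hcs] at h1
    have h2 := hc.2.1
    rw [nbs c hcs, h1] at h2
    simp at h2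

/-- one step of the induction at a leaf -/
theorem leafStep {n : V → ZMod 2} {l p : V} {a : Rest l}
    (ha : n' l p n a = 1 ∧ ∀ u, u ≠ a → n' l p n u = 0) :
    ∃ a : V, a ≠ l ∧ ∀ u, u ≠ l → n u + (if u = p then n l else 0) = if u = a then 1 else 0 := by
  refine ⟨a, fun h => a.2 h, ?_⟩
  intro u hu
  by_cases h : u = (a : V)
  · rw [if_pos h]
    have := ha.1
    unfold n' at this
    rw [h]; exact this
  · rw [if_neg h]
    exact ha.2 ⟨u, fun h => hu h⟩ (fun h' => h (congrArg Subtype.val h'))

/-- **Lemma B.** -/
theorem lemmaB_aux : ∀ (k : ℕ) (V : Type u) [Fintype V] (T : SimpleGraph V) (n : V → ZMod 2),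
    Fintype.card V = k → T.IsTree → Hyp T n → ∃ a, n a = 1 ∧ ∀ u, u ≠ a → n u = 0 := by
  intro k
  induction k with
  | zero =>
    intro V _ T n hk hT _
    have : IsEmpty V := Fintype.card_eq_zero_iff.1 hk
    obtain ⟨v⟩ := hT.connected.nonempty
    exact (IsEmpty.false v).elim
  | succ k ih =>
    intro V _ T n hk hT H
    by_cases hV : Nontrivial V
    · -- the step at a leaf
      have step : ∀ l, T.degree l = 1 → ∃ p, p ≠ l ∧ (∀ u, T.Adj l u ↔ u = p) ∧
          ∃ a : V, a ≠ l ∧ ∀ u, u ≠ l → n u + (if u = p then n l else 0) =
            if u = a then 1 else 0 := by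
        intro l hl
        obtain ⟨p, hp, hp'⟩ := SimpleGraph.degree_eq_one_iff_existsUnique_adj.mp hl
        have hpl : p ≠ l := fun h => T.loopless.irrefl l (h ▸ hp)
        have hadj : ∀ u, T.Adj l u ↔ u = p := fun u => ⟨fun h => hp' u h, fun h => h ▸ hp⟩
        have hc : Fintype.card (Rest l) = k := by
          have := Fintype.card_subtype_compl (fun v : V => v = l)
          simp only [Fintype.card_subtype_eq, hk, Nat.add_sub_cancel] at this
          rw [← this]
          exact Fintype.card_congr (Equiv.refl _)
        have htree : (T.induce ({l}ᶜ : Set V)).IsTree :=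
          ⟨hT.connected.induce_compl_singleton_of_degree_eq_one hl, hT.isAcyclic.induce _⟩
        obtain ⟨a, ha⟩ := ih (Rest l) (T.induce ({l}ᶜ : Set V)) (n' l p n) hc htree
          (hyp_rest hpl hadj H)
        exact ⟨p, hpl, hadj, leafStep ha⟩
      obtain ⟨l, q, hlq, hl, hq⟩ := hT.exists_ne_and_degree_eq_one
      obtain ⟨p, hpl, hadj, a, hal, ha⟩ := step l hl
      rcases z2 (n l) with nl | nl
      · refine ⟨a, ?_, ?_⟩
        · have := ha a hal
          rw [nl] at this
          simpa using this
        · intro u hua
          by_cases hu : u = l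
          · rw [hu, nl]
          · have := ha u hu
            rw [nl, if_neg hua] at this
            simpa using this
      · by_cases hap : a = p
        · refine ⟨l, nl, ?_⟩
          intro u hu
          have h1 := ha u hu
          rw [nl, hap] at h1
          by_cases hup : u = p
          · simp only [hup, if_true] at h1
            rw [hup]
            exact add_eq_right.1 h1
          · simp only [hup, if_false, add_zero] at h1
            exact h1
        · exfalso
          have np : n p = 1 := by
            have h1 := ha p hpl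
            rw [if_pos rfl, nl, if_neg (fun h => hap h.symm)] at h1
            rcases z2 (n p) with h | h
            · rw [h] at h1; exact absurd h1 (by decide)
            · exact h
          have na : n a = 1 := by
            have h1 := ha a hal
            rwa [if_neg hap, if_pos rfl, add_zero] at h1
          have nu : ∀ u, u ≠ l → u ≠ p → u ≠ a → n u = 0 := by
            intro u h1 h2 h3
            have h4 := ha u h1
            rwa [if_neg h2, if_neg h3, add_zero] at h4
          obtain ⟨p', hpq, hadj', b, hbq, hb⟩ := step q hq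
          rcases z2 (n q) with nq | nq
          · -- then n is a unit vector
            have h1 := hb l hlq
            have h2 := hb p (by rintro rfl; rw [np] at nq; exact one_ne nq)
            rw [nq, nl] at h1
            rw [nq, np] at h2
            by_cases e1 : l = b
            · by_cases e2 : p = b
              · exact hpl (e2.trans e1.symm)
              · rw [if_neg e2] at h2; simp at h2
            · rw [if_neg e1] at h1; simp at h1
          · have hq3 : q = p ∨ q = a := by
              by_contra hcon
              push_neg at hcon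
              have := nu q (fun h => hlq h.symm) hcon.1 hcon.2
              rw [this] at nq
              exact one_ne nq.symm
            rcases hq3 with rfl | rfl
            · -- `p` itself a leaf
              have hp'l : l = p' := (hadj' l).1 (T.adj_comm _ _ |>.1 ((hadj q).2 rfl))
              have hnt : Nontrivial (Rest l) :=
                ⟨⟨⟨q, fun h => hpl h⟩, ⟨a, fun h => hal h⟩, fun h => hap (congrArg Subtype.val h).symm⟩⟩
              have hcon := hT.connected.induce_compl_singleton_of_degree_eq_one hl
              have hpos := hcon.preconnected.degree_pos_of_nontrivial ⟨q, fun h => hpl h⟩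
              rw [SimpleGraph.degree_pos_iff_exists_adj] at hpos
              obtain ⟨w, hw⟩ := hpos
              have h5 : T.Adj q w := hw
              have h6 := (hadj' w).1 h5
              exact w.2 (h6.trans hp'l.symm)
            · by_cases hp'l : p' = l
              · have h5 : T.Adj q l := (hadj' l).2 hp'l.symm
                exact hap ((hadj q).1 h5.symm)
              · by_cases hp'p : p' = p
                · subst hp'p
                  exact cherry hlq hpl hpq hadj hadj' nl nq H
                · have h1 := hb l hlq
                  have h2 := hb p (fun h => hap h.symm)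
                  rw [if_neg (fun h => hp'l h.symm), nl, add_zero] at h1
                  rw [if_neg (fun h => hp'p h.symm), np, add_zero] at h2
                  by_cases e1 : l = b
                  · by_cases e2 : p = b
                    · exact hpl (e2.trans e1.symm)
                    · rw [if_neg e2] at h2; exact one_ne h2
                  · rw [if_neg e1] at h1; exact one_ne h1
    · -- one vertex
      obtain ⟨v⟩ := hT.connected.nonempty
      have hsub : ∀ u : V, u = v := by
        intro u
        by_contra h
        exact hV ⟨⟨u, v, h⟩⟩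
      refine ⟨v, ?_, fun u hu => absurd (hsub u) hu⟩
      by_contra hn
      have nv : n v = 0 := by
        rcases z2 (n v) with h | h
        · exact h
        · exact absurd h hn
      have n0 : ∀ u, n u = 0 := fun u => by rw [hsub u]; exact nv
      have e0 : ∀ b, en n b = 0 := by
        intro b
        unfold en
        simp [n0]
      have hcl : Closed T n (fun _ => 1) := by
        refine ⟨?_, ?_, e0 _⟩
        · intro h
          exact one_ne (congrFun h v)
        · intro u hu
          exact absurd hu one_ne
      obtain ⟨g, c, d, hcd, hcd0, hc, hd⟩ := H _ hcl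
      cases g with
      | none =>
        have := hc.2
        rw [e0] at this
        exact one_ne this.symm
      | some w =>
        have h1 := hcd w
        rw [hc.1, hd.1, add_zero] at h1
        exact one_ne h1

/-- **Lemma B** (helper80): if `T` is a tree and every closed set avoiding the root splits, the root
has exactly one neighbour. -/
theorem lemmaB {V : Type u} [Fintype V] (T : SimpleGraph V) (n : V → ZMod 2) (hT : T.IsTree)
    (H : Hyp T n) : ∃ a, n a = 1 ∧ ∀ u, u ≠ a → n u = 0 :=
  lemmaB_aux _ V T n rfl hT H

end Pool.Agent.H35.LB
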